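import Mathlib

set_option autoImplicit false

namespace Pool.Agent.Lead.WF

open MeasureTheory Set Filter Real Polynomial

lemma ae_ne_cos (w : ℝ) : ∀ᵐ θ ∂(volume.restrict (Ioo 0 π)), w ≠ cos θ := by
  rw [ae_restrict_iff' measurableSet_Ioo]
  have : ({θ | θ ∈ Ioo 0 π ∧ w = cos θ} : Set ℝ).Subsingleton := by
    intro a ha b hb
    exact Real.injOn_cos ⟨ha.1.1.le, ha.1.2.le⟩ ⟨hb.1.1.le, hb.1.2.le⟩ (ha.2.symm.trans hb.2)
  have h := this.measure_zero (μ := volume)
  rw [ae_iff]
  convert h using 2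
  ext θ; simp [and_assoc]

/-- potential of the arcsine law -/
lemma arcs (u : ℂ) (hu : 1 ≤ ‖u‖) (w : ℝ) (hw : (w:ℂ) = (u + u⁻¹) / 2) :
    Integrable (fun θ => Real.log |w - cos θ|) (volume.restrict (Ioo 0 π)) ∧
      ∫ θ in Ioo 0 π, Real.log |w - cos θ| = π * (Real.log ‖u‖ - Real.log 2) := by
  have hu0 : u ≠ 0 := by rintro rfl; norm_num at hu
  set g : ℝ → ℝ := fun θ => Real.log ‖circleMap 0 1 θ - u‖ with hg
  have hci : IntervalIntegrable g volume 0 (2 * π) :=
    (analyticOnNhd_id.sub analyticOnNhd_const).meromorphicOn.circleIntegrable_log_norm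
      (c := 0) (R := 1)
  have hav : ∫ θ in (0:ℝ)..(2 * π), g θ = 2 * π * Real.log ‖u‖ := by
    have := circleAverage_log_norm_sub_const_eq_posLog (a := u)
    rw [Real.circleAverage_def, Real.posLog_eq_log (by rwa [abs_norm]), smul_eq_mul] at this
    rw [← this]; field_simp; rfl
  have h1 : IntervalIntegrable g volume 0 π :=
    hci.mono_set (by rw [uIcc_of_le pi_pos.le, uIcc_of_le (by positivity)]
                     exact Icc_subset_Icc le_rfl (by linarith [pi_pos]))
  have h2 : IntervalIntegrable g volume π (2 * π) :=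
    hci.mono_set (by rw [uIcc_of_le (by linarith [pi_pos]), uIcc_of_le (by positivity)]
                     exact Icc_subset_Icc pi_pos.le le_rfl)
  have h3 : IntervalIntegrable (fun θ => g (2 * π - θ)) volume 0 π := by
    have := (h2.comp_sub_left (2 * π)).symm
    rwa [sub_self, show 2 * π - π = π by ring] at this
  have h4 : ∫ θ in (0:ℝ)..π, g (2 * π - θ) = ∫ θ in π..(2 * π), g θ := by
    rw [intervalIntegral.integral_comp_sub_left, sub_zero, show 2 * π - π = π by ring]
  have hae : (fun θ => Real.log |w - cos θ|) =ᵐ[volume.restrict (Ioo 0 π)]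
      fun θ => g θ + g (2 * π - θ) - Real.log (2 * ‖u‖) := by
    filter_upwards [ae_ne_cos w] with θ hθ
    have e : (circleMap 0 1 θ - u) * (circleMap 0 1 (2 * π - θ) - u) =
        2 * u * ((w - cos θ : ℝ) : ℂ) := by
      simp only [circleMap, zero_add, Complex.ofReal_one, one_mul, Complex.exp_mul_I]
      rw [← Complex.ofReal_cos, ← Complex.ofReal_cos, ← Complex.ofReal_sin, ← Complex.ofReal_sin,
        Real.cos_two_pi_sub, Real.sin_two_pi_sub]
      have h5 : ((cos θ : ℝ) : ℂ) ^ 2 + ((sin θ : ℝ) : ℂ) ^ 2 = 1 := by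
        exact_mod_cast Real.cos_sq_add_sin_sq θ
      rw [Complex.ofReal_sub, hw, Complex.ofReal_neg]
      field_simp
      linear_combination h5 - ((sin θ : ℝ) : ℂ) ^ 2 * Complex.I_sq
    have hne : 2 * u * ((w - cos θ : ℝ) : ℂ) ≠ 0 :=
      mul_ne_zero (mul_ne_zero two_ne_zero hu0) (by exact_mod_cast sub_ne_zero.mpr hθ)
    rw [← e] at hne
    simp only [hg]
    rw [← Real.log_mul (norm_ne_zero_iff.mpr (left_ne_zero_of_mul hne))
      (norm_ne_zero_iff.mpr (right_ne_zero_of_mul hne)), ← norm_mul, e, norm_mul, norm_mul,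
      Complex.norm_real, Real.norm_eq_abs, Complex.norm_ofNat,
      Real.log_mul (by positivity) (abs_ne_zero.mpr (sub_ne_zero.mpr hθ))]
    ring
  rw [intervalIntegrable_iff_integrableOn_Ioo_of_le pi_pos.le] at h1 h3
  have hc : Integrable (fun _ : ℝ => Real.log (2 * ‖u‖)) (volume.restrict (Ioo 0 π)) :=
    integrable_const _
  have h13 : Integrable (fun θ => g θ + g (2 * π - θ)) (volume.restrict (Ioo 0 π)) := h1.add h3
  refine ⟨(h13.sub hc).congr hae.symm, ?_⟩
  rw [integral_congr_ae hae, integral_sub h13 hc, integral_add h1 h3,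
    ← integral_Ioc_eq_integral_Ioo, ← integral_Ioc_eq_integral_Ioo,
    ← intervalIntegral.integral_of_le pi_pos.le, ← intervalIntegral.integral_of_le pi_pos.le, h4,
    intervalIntegral.integral_add_adjacent_intervals
      ((intervalIntegrable_iff_integrableOn_Ioo_of_le pi_pos.le).mpr h1) h2, hav,
    Real.log_mul (by norm_num) (by positivity)]
  simp [pi_pos.le]; ring

lemma measurable_lg : Measurable fun p : ℝ × ℝ => Real.log |p.1 - p.2| :=
  Real.measurable_log.comp (by fun_prop)

lemma vander (K : Set ℝ) (C κ : ℝ) (hC : 1 ≤ C) (hκ : 0 < κ)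
    (hQ : ∀ k : ℕ, ∃ Q : ℝ[X], Q.Monic ∧ Q.natDegree = k ∧ ∀ x ∈ K, |Q.eval x| ≤ C * κ ^ k)
    (n : ℕ) (v : Fin n → ℝ) (hv : ∀ i, v i ∈ K) (hinj : Function.Injective v) :
    ∑ i, ∑ j ∈ Finset.Ioi i, Real.log |v j - v i| ≤
      Real.log (n.factorial) + n * Real.log C + (∑ j : Fin n, (j:ℝ)) * Real.log κ := by
  choose Q h1 h2 h3 using hQ
  have hne : ∀ i, ∀ j ∈ Finset.Ioi i, |v j - v i| ≠ 0 := fun i j hj =>
    abs_ne_zero.2 (sub_ne_zero.2 fun h => (Finset.mem_Ioi.1 hj).ne' (hinj h))
  have e : ∑ i, ∑ j ∈ Finset.Ioi i, Real.log |v j - v i| =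
      Real.log |(Matrix.vandermonde v).det| := by
    rw [Matrix.det_vandermonde, Finset.abs_prod, Real.log_prod fun i _ => by
      rw [Finset.abs_prod]; exact Finset.prod_ne_zero_iff.2 (hne i)]
    refine Finset.sum_congr rfl fun i _ => ?_
    rw [Finset.abs_prod, Real.log_prod (hne i)]
  have hpos : 0 < |(Matrix.vandermonde v).det| :=
    abs_pos.2 (Matrix.det_vandermonde_ne_zero_iff.2 hinj)
  have hle := Matrix.det_le
    (A := Matrix.of fun (i j : Fin n) => (κ ^ (j:ℕ))⁻¹ * (Q j).eval (v i))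
    (abv := AbsoluteValue.abs) (x := C) fun i j => by
      have := h3 j (v i) (hv i)
      simp only [Matrix.of_apply, AbsoluteValue.abs_apply, abs_mul, abs_inv, abs_pow,
        abs_of_pos hκ]
      rw [inv_mul_le_iff₀ (by positivity)]; linarith
  have hd := Matrix.det_mul_row (fun j : Fin n => (κ ^ (j:ℕ))⁻¹)
    (Matrix.of fun (i j : Fin n) => (Q j).eval (v i))
  simp only [Matrix.of_apply] at hd
  rw [hd, ← Matrix.det_eval_matrixOfPolynomials_eq_det_vandermonde v (fun j => Q j)
    (fun j => h2 j) (fun j => h1 j), Fintype.card_fin, nsmul_eq_mul, AbsoluteValue.abs_apply,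
    abs_mul, abs_of_pos (Finset.prod_pos (fun j _ => by positivity)), Finset.prod_inv_distrib,
    inv_mul_le_iff₀ (Finset.prod_pos (fun j _ => by positivity))] at hle
  rw [e]
  refine (Real.log_le_log hpos hle).trans (le_of_eq ?_)
  rw [Real.log_mul (Finset.prod_pos (fun j _ => by positivity)).ne' (by positivity),
    Real.log_mul (by positivity) (by positivity), Real.log_pow,
    Real.log_prod (fun j _ => by positivity), Finset.sum_mul]
  simp only [Real.log_pow]; ring

/-- Energy bound from small monic polynomials. -/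
theorem energy_le (K : Set ℝ) (C κ : ℝ) (hC : 1 ≤ C) (hκ : 0 < κ)
    (hQ : ∀ k : ℕ, ∃ Q : ℝ[X], Q.Monic ∧ Q.natDegree = k ∧ ∀ x ∈ K, |Q.eval x| ≤ C * κ ^ k)
    (ρ : Measure ℝ) [IsProbabilityMeasure ρ] [NullSingletonClass ρ] (hK : ρ Kᶜ = 0)
    (hi : Integrable (fun p : ℝ × ℝ => Real.log |p.1 - p.2|) (ρ.prod ρ)) :
    ∫ p, Real.log |p.1 - p.2| ∂(ρ.prod ρ) ≤ Real.log κ := by
  set Pr := Measure.infinitePi fun _ : ℕ => ρ with hPr
  set I := ∫ p, Real.log |p.1 - p.2| ∂(ρ.prod ρ) with hI
  have hmp : ∀ i j : ℕ, i ≠ j → MeasurePreserving (fun ω : ℕ → ℝ => (ω i, ω j)) Pr (ρ.prod ρ) :=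
    fun i j h => ⟨by fun_prop, Measure.infinitePi_map_eval_prod h⟩
  have hdiag : ∀ᵐ p ∂(ρ.prod ρ), p.1 ≠ p.2 := by
    rw [ae_iff]
    simp only [ne_eq, not_not]
    rw [Measure.prod_apply (measurableSet_eq_fun measurable_fst measurable_snd)]
    simp
  have h1 : ∀ᵐ ω ∂Pr, (∀ i, ω i ∈ K) ∧ ∀ i j, i ≠ j → ω i ≠ ω j := by
    refine (ae_all_iff.2 fun i => ?_).and (ae_all_iff.2 fun i => ae_all_iff.2 fun j => ?_)
    · exact (measurePreserving_eval_infinitePi (fun _ : ℕ => ρ) i).quasiMeasurePreserving.ae hK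
    · by_cases h : i = j
      · simp [h]
      · filter_upwards [(hmp i j h).quasiMeasurePreserving.ae hdiag] with ω hω _ using hω
  have h2 : ∀ n : ℕ, 2 ≤ n → I - Real.log κ ≤ 4 * (Real.log n / n) + 4 * Real.log C / n := by
    intro n hn
    have hint : ∀ i : Fin n, ∀ j ∈ Finset.Ioi i,
        Integrable (fun ω : ℕ → ℝ => Real.log |ω j - ω i|) Pr := fun i j hj =>
      (hmp j i (Fin.val_ne_of_ne (Finset.mem_Ioi.1 hj).ne')).integrable_comp_of_integrable hi
    have hval : ∀ i : Fin n, ∀ j ∈ Finset.Ioi i,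
        ∫ ω : ℕ → ℝ, Real.log |ω j - ω i| ∂Pr = I := fun i j hj => by
      have := hmp j i (Fin.val_ne_of_ne (Finset.mem_Ioi.1 hj).ne')
      rw [hI, ← this.map_eq, integral_map this.measurable.aemeasurable
        measurable_lg.aestronglyMeasurable]
    have h3 := integral_mono_ae (μ := Pr)
      (f := fun ω => ∑ i : Fin n, ∑ j ∈ Finset.Ioi i, Real.log |ω j - ω i|)
      (g := fun _ => Real.log (n.factorial) + n * Real.log C + (∑ j : Fin n, (j:ℝ)) * Real.log κ)
      (integrable_finsetSum _ fun i _ => integrable_finsetSum _ (hint i)) (integrable_const _)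
      (h1.mono fun ω hω => vander K C κ hC hκ hQ n (fun i => ω i) (fun i => hω.1 i)
        fun i j h => Fin.ext (by_contra fun hne => hω.2 i j hne h))
    rw [integral_finsetSum _ fun i _ => integrable_finsetSum _ (hint i),
      Finset.sum_congr rfl fun i _ => (integral_finsetSum _ (hint i)).trans
        (Finset.sum_congr rfl (hval i))] at h3
    simp only [Finset.sum_const, Fin.card_Ioi, nsmul_eq_mul, integral_const, probReal_univ,
      one_smul, ← Finset.sum_mul] at h3
    rw [← Nat.cast_sum, Fin.sum_univ_eq_sum_range (fun i => n - 1 - i),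
      Finset.sum_range_reflect (fun i => i), ← Nat.cast_sum,
      Fin.sum_univ_eq_sum_range (fun i => i)] at h3
    have h4 : ((∑ i ∈ Finset.range n, i : ℕ) : ℝ) * 2 = n * (n - 1) := by
      have := Finset.sum_range_id_mul_two n
      have h5 : 1 ≤ n := by omega
      exact_mod_cast this
    have hn' : (2 : ℝ) ≤ n := by exact_mod_cast hn
    have h5 : Real.log (n.factorial) ≤ n * Real.log n := by
      rw [← Real.log_pow]
      exact Real.log_le_log (by positivity) (by exact_mod_cast Nat.factorial_le_pow n)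
    have h6 : (n - 1) * (I - Real.log κ) ≤ 2 * (Real.log n + Real.log C) := by
      refine le_of_mul_le_mul_left ?_ (show (0 : ℝ) < n by positivity)
      rw [← mul_assoc, ← h4]; linarith
    have l1 : 0 ≤ Real.log n := Real.log_nonneg (by linarith)
    have l2 : 0 ≤ Real.log C := Real.log_nonneg hC
    rcases le_total (I - Real.log κ) 0 with h | h
    · exact h.trans (by positivity)
    · rw [← mul_div_assoc, ← add_div, le_div_iff₀ (by positivity)]
      nlinarith
  have t1 : Tendsto (fun n : ℕ => Real.log n / n) atTop (nhds 0) := by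
    have := (Real.isLittleO_log_id_atTop.tendsto_div_nhds_zero).comp tendsto_natCast_atTop_atTop
    exact this
  have h3 := (t1.const_mul 4).add (tendsto_const_div_atTop_nhds_zero_nat (4 * Real.log C))
  rw [mul_zero, add_zero] at h3
  have := ge_of_tendsto h3 (eventually_atTop.2 ⟨2, h2⟩)
  linarith

end Pool.Agent.Lead.WF
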