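import Mathlib

set_option autoImplicit false

namespace Pool.Agent.Lead.WF

open MeasureTheory

/-- The finite gap set with bands `[α j, β j]`. -/
def gapSet {l : ℕ} (α β : Fin (l + 1) → ℝ) : Set ℝ := ⋃ j, Set.Icc (α j) (β j)

/-- Minus the logarithmic energy: the double integral of `log |x - y|`. -/
noncomputable def negEnergy (ν : Measure ℝ) : ℝ := ∫ p : ℝ × ℝ, Real.log |p.1 - p.2| ∂(ν.prod ν)

/-- `ν` is a probability measure on `K` of finite logarithmic energy. -/
def FiniteEnergy (K : Set ℝ) (ν : Measure ℝ) : Prop :=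
  IsProbabilityMeasure ν ∧ ν Kᶜ = 0 ∧ (∀ x, ν {x} = 0) ∧
    Integrable (fun p : ℝ × ℝ => Real.log |p.1 - p.2|) (ν.prod ν)

/-- `ν` is the equilibrium measure of `K`: it has least energy. Then `cap K = exp (negEnergy ν)`. -/
def IsEquilibrium (K : Set ℝ) (ν : Measure ℝ) : Prop :=
  FiniteEnergy K ν ∧ ∀ ρ, FiniteEnergy K ρ → negEnergy ρ ≤ negEnergy ν

/-- The reflectionless measure attached to `γ`; its density is `(1/π) Im G_γ(x + i0)` on `K`. -/
noncomputable def reflMeasure {l : ℕ} (α β : Fin (l + 1) → ℝ) (γ : Fin l → ℝ) : Measure ℝ :=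
  (volume.restrict (gapSet α β)).withDensity fun x =>
    ENNReal.ofReal ((∏ j, |x - γ j|) / (Real.pi * Real.sqrt (∏ j, |x - α j| * |x - β j|)))

/-- The `L²` Widom factor of `μ`, where `ν` is the equilibrium measure of the support. -/
noncomputable def widom (μ ν : Measure ℝ) (n : ℕ) : ℝ :=
  (⨅ P : {P : Polynomial ℝ // P.Monic ∧ P.natDegree = n}, Real.sqrt (∫ x, (P.1.eval x) ^ 2 ∂μ)) /
    Real.exp (negEnergy ν) ^ n

/-- The Szego quantity `S(μ) = exp ∫ log (dμ/dν) dν`. -/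
noncomputable def szego (μ ν : Measure ℝ) : ℝ :=
  Real.exp (∫ x, Real.log (μ.rnDeriv ν x).toReal ∂ν)

end Pool.Agent.Lead.WF
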