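import Pool.Agent.Lead.WF.A
import Pool.Agent.Lead.WF.Defs

set_option autoImplicit false

namespace Pool.Agent.Lead.WF

open MeasureTheory Set Filter Real Polynomial

noncomputable def Tf (x : ℝ) : ℝ := (x ^ 3 - 147 * x - 486) / 200

noncomputable def dens (g x : ℝ) : ℝ :=
  |x - g| / (π * Real.sqrt (|x + 11| * |x + 2| * (|x - 13| * |x - 14|)))

def KK : Set ℝ := Icc (-11) (-2) ∪ Icc 13 14

noncomputable def mu (g : ℝ) : Measure ℝ := reflMeasure ![-11, 13] ![-2, 14] ![g]

lemma gap_eq : gapSet ![-11, 13] ![-2, 14] = KK := by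
  ext x; simp [gapSet, KK, Fin.exists_fin_two]

lemma KK_meas : MeasurableSet KK := measurableSet_Icc.union measurableSet_Icc

lemma mu_eq (g : ℝ) :
    mu g = (volume.restrict KK).withDensity (fun x => ENNReal.ofReal (dens g x)) := by
  simp [mu, reflMeasure, gap_eq, dens, Fin.prod_univ_two]

lemma dens_meas (g : ℝ) : Measurable (dens g) := by unfold dens; fun_prop

lemma piece (a b : ℝ) (hT : ∀ x ∈ Ioo a b, Tf x ∈ Ioo (-1:ℝ) 1) (hinj : InjOn Tf (Ioo a b))
    (hsurj : Ioo (-1:ℝ) 1 ⊆ Tf '' Ioo a b) :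
    ∃ X : ℝ → ℝ, Measurable X ∧ (∀ θ ∈ Ioo 0 π, X θ ∈ Ioo a b ∧ Tf (X θ) = cos θ) ∧
      ∀ φ : ℝ → ENNReal, ∫⁻ x in Ioo a b, ENNReal.ofReal (3 * π * dens 7 x) * φ x =
        ∫⁻ θ in Ioo 0 π, φ (X θ) := by
  set f : ℝ → ℝ := fun x => arccos (Tf x) with hf
  have hfc : Continuous f := by unfold Tf at hf; rw [hf]; fun_prop
  have hfi : InjOn f (Ioo a b) := fun x hx y hy h =>
    hinj hx hy (Real.arccos_injOn (Ioo_subset_Icc_self (hT x hx)) (Ioo_subset_Icc_self (hT y hy)) h)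
  obtain ⟨X, hXm, hX⟩ := (ContinuousOn.measurableEmbedding measurableSet_Ioo hfc.continuousOn
    hfi).exists_measurable_extend (measurable_subtype_coe) (fun _ => ⟨0⟩)
  have hX' : ∀ x ∈ Ioo a b, X (f x) = x := fun x hx => congrFun hX ⟨x, hx⟩
  have him : f '' Ioo a b = Ioo 0 π := by
    apply Subset.antisymm
    · rintro _ ⟨x, hx, rfl⟩
      exact ⟨Real.arccos_pos.mpr (hT x hx).2, Real.arccos_lt_pi.mpr (hT x hx).1⟩
    · intro θ hθ
      have h1 : cos θ ∈ Ioo (-1:ℝ) 1 := by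
        constructor
        · rw [← Real.cos_pi]; exact Real.cos_lt_cos_of_nonneg_of_le_pi hθ.1.le le_rfl hθ.2
        · rw [← Real.cos_zero]; exact Real.cos_lt_cos_of_nonneg_of_le_pi le_rfl hθ.2.le hθ.1
      obtain ⟨x, hx, hxe⟩ := hsurj h1
      exact ⟨x, hx, by simp only [hf, hxe]; exact Real.arccos_cos hθ.1.le hθ.2.le⟩
  refine ⟨X, hXm, ?_, fun φ => ?_⟩
  · intro θ hθ
    rw [← him] at hθ
    obtain ⟨x, hx, rfl⟩ := hθ
    rw [hX' x hx]
    exact ⟨hx, (Real.cos_arccos (hT x hx).1.le (hT x hx).2.le).symm⟩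
  · have hd : ∀ x ∈ Ioo a b, HasDerivWithinAt f
        (-(1 / Real.sqrt (1 - Tf x ^ 2)) * ((3 * x ^ 2 - 147) / 200)) (Ioo a b) x := by
      intro x hx
      have h1 : HasDerivAt Tf ((3 * x ^ 2 - 147) / 200) x := by
        unfold Tf
        have := (((hasDerivAt_pow 3 x).sub ((hasDerivAt_id x).const_mul 147)).sub_const 486).div_const 200
        simpa using this
      exact ((Real.hasDerivAt_arccos (hT x hx).1.ne' (hT x hx).2.ne).comp x h1).hasDerivWithinAt
    rw [← him, lintegral_image_eq_lintegral_abs_deriv_mul measurableSet_Ioo hd hfi]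
    apply setLIntegral_congr_fun measurableSet_Ioo
    intro x hx
    simp only
    rw [hX' x hx]
    congr 2
    have h0 : 0 < 1 - Tf x ^ 2 := by nlinarith [(hT x hx).1, (hT x hx).2]
    have e1 : 1 - Tf x ^ 2 = ((x + 7) / 200) ^ 2 * -((x + 11) * (x + 2) * ((x - 13) * (x - 14))) := by
      unfold Tf; ring
    have h7 : x + 7 ≠ 0 := by
      intro h; rw [e1, h] at h0; simp at h0
    have hp : 0 < -((x + 11) * (x + 2) * ((x - 13) * (x - 14))) := by
      rw [e1] at h0; exact (pos_iff_pos_of_mul_pos h0).mp (by positivity)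
    have e2 : |x + 11| * |x + 2| * (|x - 13| * |x - 14|) =
        -((x + 11) * (x + 2) * ((x - 13) * (x - 14))) := by
      rw [← abs_mul, ← abs_mul, ← abs_mul, abs_of_neg (by linarith)]
    have hs := Real.sqrt_pos.mpr hp
    rw [dens, e2, e1, Real.sqrt_mul (sq_nonneg _), Real.sqrt_sq_eq_abs,
      show 3 * x ^ 2 - 147 = 3 * ((x + 7) * (x - 7)) by ring]
    generalize Real.sqrt (-((x + 11) * (x + 2) * ((x - 13) * (x - 14)))) = S at hs
    simp only [abs_mul, abs_neg, abs_div, abs_one, abs_abs, abs_of_pos hs]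
    have := abs_pos.mpr h7
    have := pi_pos
    norm_num
    field_simp

lemma Tp (x : ℝ) : Tf x + 1 = (x + 11) * (x + 2) * (x - 13) / 200 := by unfold Tf; ring
lemma Tm (x : ℝ) : 1 - Tf x = (x + 7) ^ 2 * (14 - x) / 200 := by unfold Tf; ring
lemma Tcont : Continuous Tf := by unfold Tf; fun_prop

lemma Tinj {x y : ℝ} (h : Tf x = Tf y) : x = y ∨ x ^ 2 + x * y + y ^ 2 = 147 := by
  have : (x - y) * (x ^ 2 + x * y + y ^ 2 - 147) = 0 := by
    unfold Tf at h; linear_combination 200 * h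
  rcases mul_eq_zero.mp this with h | h
  · left; linarith
  · right; linarith

noncomputable def lam : Measure ℝ := volume.restrict (Ioo 0 π)

instance : IsFiniteMeasure lam := by unfold lam; infer_instance

theorem branches : ∃ X Y Z : ℝ → ℝ, Measurable X ∧ Measurable Y ∧ Measurable Z ∧
    (∀ θ ∈ Ioo 0 π, X θ ∈ Ioo (-11:ℝ) (-7) ∧ Y θ ∈ Ioo (-7:ℝ) (-2) ∧ Z θ ∈ Ioo (13:ℝ) 14 ∧
      Tf (X θ) = cos θ ∧ Tf (Y θ) = cos θ ∧ Tf (Z θ) = cos θ) ∧
    mu 7 = ENNReal.ofReal (1 / (3 * π)) • (lam.map X + lam.map Y + lam.map Z) := by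
  obtain ⟨X, mX, hX, iX⟩ := piece (-11) (-7) (fun x hx => by
      have h1 := Tp x; have h2 := Tm x
      have : 0 < (x + 11) * ((x + 2) * (x - 13)) := mul_pos (by linarith [hx.1])
        (mul_pos_of_neg_of_neg (by linarith [hx.2]) (by linarith [hx.2]))
      have : 0 < (x + 7) ^ 2 * (14 - x) := mul_pos (sq_pos_of_neg (by linarith [hx.2]))
        (by linarith [hx.2])
      constructor <;> linarith)
    (fun x hx y hy h => (Tinj h).resolve_right (by nlinarith [hx.2, hy.2]))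
    (by have := intermediate_value_Ioo (show (-11:ℝ) ≤ -7 by norm_num) Tcont.continuousOn
        rwa [show Tf (-11) = -1 by norm_num [Tf], show Tf (-7) = 1 by norm_num [Tf]] at this)
  obtain ⟨Y, mY, hY, iY⟩ := piece (-7) (-2) (fun x hx => by
      have h1 := Tp x; have h2 := Tm x
      have : 0 < (x + 11) * ((x + 2) * (x - 13)) := mul_pos (by linarith [hx.1])
        (mul_pos_of_neg_of_neg (by linarith [hx.2]) (by linarith [hx.2]))
      have : 0 < (x + 7) ^ 2 * (14 - x) := mul_pos (sq_pos_of_pos (by linarith [hx.1]))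
        (by linarith [hx.2])
      constructor <;> linarith)
    (fun x hx y hy h => (Tinj h).resolve_right (by nlinarith [hx.1, hy.1, hx.2, hy.2]))
    (by have := intermediate_value_Ioo' (show (-7:ℝ) ≤ -2 by norm_num) Tcont.continuousOn
        rwa [show Tf (-2) = -1 by norm_num [Tf], show Tf (-7) = 1 by norm_num [Tf]] at this)
  obtain ⟨Z, mZ, hZ, iZ⟩ := piece 13 14 (fun x hx => by
      have h1 := Tp x; have h2 := Tm x
      have : 0 < (x + 11) * ((x + 2) * (x - 13)) := mul_pos (by linarith [hx.1])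
        (mul_pos (by linarith [hx.1]) (by linarith [hx.1]))
      have : 0 < (x + 7) ^ 2 * (14 - x) := mul_pos (sq_pos_of_pos (by linarith [hx.1]))
        (by linarith [hx.2])
      constructor <;> linarith)
    (fun x hx y hy h => (Tinj h).resolve_right (by nlinarith [hx.1, hy.1]))
    (by have := intermediate_value_Ioo (show (13:ℝ) ≤ 14 by norm_num) Tcont.continuousOn
        rwa [show Tf 13 = -1 by norm_num [Tf], show Tf 14 = 1 by norm_num [Tf]] at this)
  refine ⟨X, Y, Z, mX, mY, mZ, fun θ hθ =>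
    ⟨(hX θ hθ).1, (hY θ hθ).1, (hZ θ hθ).1, (hX θ hθ).2, (hY θ hθ).2, (hZ θ hθ).2⟩, ?_⟩
  have hK : KK =ᵐ[volume] ((Ioo (-11) (-7) ∪ Ioo (-7) (-2) : Set ℝ) ∪ Ioo 13 14 : Set ℝ) := by
    have : KK = (Icc (-11) (-7) ∪ Icc (-7) (-2) : Set ℝ) ∪ Icc 13 14 := by
      rw [Icc_union_Icc_eq_Icc (by norm_num) (by norm_num)]; rfl
    rw [this]
    exact (Ioo_ae_eq_Icc.symm.union Ioo_ae_eq_Icc.symm).union Ioo_ae_eq_Icc.symm
  have hm : ∀ (W : ℝ → ℝ), Measurable W → ∀ s, MeasurableSet s →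
      ∫⁻ θ in Ioo 0 π, s.indicator 1 (W θ) = lam.map W s := by
    intro W hW s hs
    rw [← lintegral_indicator_one hs, lintegral_map (measurable_one.indicator hs) hW]; rfl
  ext s hs
  rw [mu_eq, withDensity_apply _ hs, ← lintegral_indicator hs, Measure.restrict_congr_set hK,
    Measure.smul_apply, Measure.add_apply, Measure.add_apply, ← hm X mX s hs, ← hm Y mY s hs,
    ← hm Z mZ s hs, ← iX, ← iY, ← iZ, ← lintegral_union measurableSet_Ioo (by
      rw [Set.disjoint_left]; intro x h1 h2; linarith [h1.2, h2.1]),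
    ← lintegral_union measurableSet_Ioo (by
      rw [Set.disjoint_left]; rintro x (h1 | h1) h2 <;> linarith [h1.2, h2.1]), smul_eq_mul,
    ← lintegral_const_mul' _ _ ENNReal.ofReal_ne_top]
  congr 1
  ext x
  by_cases hx : x ∈ s
  · simp only [indicator_of_mem hx, Pi.one_apply, mul_one]
    rw [← ENNReal.ofReal_mul (by positivity)]
    congr 1
    field_simp
  · simp [indicator_of_notMem hx]

lemma vieta {x y z c : ℝ} (hx : x ∈ Ioo (-11:ℝ) (-7)) (hy : y ∈ Ioo (-7:ℝ) (-2))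
    (hz : z ∈ Ioo (13:ℝ) 14) (h1 : Tf x = c) (h2 : Tf y = c) (h3 : Tf z = c) :
    x + y + z = 0 ∧ x * y + x * z + y * z = -147 ∧ x * y * z = 200 * c + 486 := by
  have a1 := (Tinj (h1.trans h2.symm)).resolve_left (by linarith [hx.2, hy.1])
  have a2 := (Tinj (h1.trans h3.symm)).resolve_left (by linarith [hx.2, hz.1])
  have a3 : (y - z) * (x + y + z) = 0 := by linear_combination a1 - a2
  have a4 : x + y + z = 0 := (mul_eq_zero.mp a3).resolve_left (by linarith [hy.2, hz.1])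
  refine ⟨a4, by linear_combination (x + y) * a4 - a1, ?_⟩
  unfold Tf at h1
  linear_combination 200 * h1 + x * y * a4 - x * a1

end Pool.Agent.Lead.WF
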