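import Pool.Agent.Lead.WF.B

set_option autoImplicit false

namespace Pool.Agent.Lead.WF

open MeasureTheory Set Filter Real Polynomial

lemma gen {X Y Z : ℝ → ℝ} (mX : Measurable X) (mY : Measurable Y) (mZ : Measurable Z)
    (h : mu 7 = ENNReal.ofReal (1 / (3 * π)) • (lam.map X + lam.map Y + lam.map Z))
    (φ : ℝ → ℝ) (hφ : Measurable φ) (iX : Integrable (fun θ => φ (X θ)) lam)
    (iY : Integrable (fun θ => φ (Y θ)) lam) (iZ : Integrable (fun θ => φ (Z θ)) lam) :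
    Integrable φ (mu 7) ∧
      ∫ x, φ x ∂(mu 7) = (1 / (3 * π)) * ∫ θ, (φ (X θ) + φ (Y θ) + φ (Z θ)) ∂lam := by
  have jX := (integrable_map_measure hφ.aestronglyMeasurable mX.aemeasurable).mpr iX
  have jY := (integrable_map_measure hφ.aestronglyMeasurable mY.aemeasurable).mpr iY
  have jZ := (integrable_map_measure hφ.aestronglyMeasurable mZ.aemeasurable).mpr iZ
  rw [h]
  refine ⟨((jX.add_measure jY).add_measure jZ).smul_measure ENNReal.ofReal_ne_top, ?_⟩
  have iXY : Integrable (fun θ => φ (X θ) + φ (Y θ)) lam := iX.add iY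
  rw [integral_smul_measure, integral_add_measure (jX.add_measure jY) jZ,
    integral_add_measure jX jY, integral_map mX.aemeasurable hφ.aestronglyMeasurable,
    integral_map mY.aemeasurable hφ.aestronglyMeasurable,
    integral_map mZ.aemeasurable hφ.aestronglyMeasurable, integral_add iXY iZ, integral_add iX iY,
    ENNReal.toReal_ofReal (by positivity), smul_eq_mul]

lemma lam_ae : ∀ᵐ θ ∂lam, θ ∈ Ioo 0 π := ae_restrict_mem measurableSet_Ioo

lemma lam_real : lam.real univ = π := by simp [lam, pi_pos.le]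

lemma K1 (φ : ℝ → ℝ) (hφ : Measurable φ) (hc : ContinuousOn φ KK) (v : ℝ)
    (hv : ∀ x y z : ℝ, x ∈ Ioo (-11:ℝ) (-7) → y ∈ Ioo (-7:ℝ) (-2) → z ∈ Ioo (13:ℝ) 14 →
      x + y + z = 0 → x * y + x * z + y * z = -147 → φ x + φ y + φ z = 3 * v) :
    Integrable φ (mu 7) ∧ ∫ x, φ x ∂(mu 7) = v := by
  obtain ⟨X, Y, Z, mX, mY, mZ, H, h⟩ := branches
  obtain ⟨B, hB⟩ := (isCompact_Icc.union isCompact_Icc : IsCompact KK).exists_bound_of_continuousOn hc
  have hi : ∀ W : ℝ → ℝ, Measurable W → (∀ θ ∈ Ioo 0 π, W θ ∈ KK) →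
      Integrable (fun θ => φ (W θ)) lam := fun W mW hW =>
    Integrable.of_bound (hφ.comp mW).aestronglyMeasurable B
      (lam_ae.mono fun θ hθ => hB _ (hW θ hθ))
  obtain ⟨a, b⟩ := gen mX mY mZ h φ hφ
    (hi X mX fun θ hθ => Or.inl ⟨(H θ hθ).1.1.le, by linarith [(H θ hθ).1.2]⟩)
    (hi Y mY fun θ hθ => Or.inl ⟨by linarith [(H θ hθ).2.1.1], (H θ hθ).2.1.2.le⟩)
    (hi Z mZ fun θ hθ => Or.inr (Ioo_subset_Icc_self (H θ hθ).2.2.1))
  refine ⟨a, ?_⟩
  rw [b, integral_congr_ae (g := fun _ => 3 * v), integral_const, lam_real, smul_eq_mul]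
  · field_simp
  · filter_upwards [lam_ae] with θ hθ
    obtain ⟨h1, h2, h3, h4, h5, h6⟩ := H θ hθ
    obtain ⟨v1, v2, -⟩ := vieta h1 h2 h3 h4 h5 h6
    exact hv _ _ _ h1 h2 h3 v1 v2

lemma log_le {p x : ℝ} (hp : p ∈ Icc (-11:ℝ) 14) (hx : x ∈ Icc (-11:ℝ) 14) :
    Real.log |p - x| ≤ Real.log 25 := by
  rcases eq_or_ne p x with rfl | h
  · simp; exact Real.log_nonneg (by norm_num)
  · apply Real.log_le_log (abs_pos.mpr (sub_ne_zero.mpr h))
    rw [abs_le]; constructor <;> linarith [hp.1, hp.2, hx.1, hx.2]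

lemma K2 (p : ℝ) (hp : p ∈ Icc (-11:ℝ) 14) (u : ℂ) (hu : 1 ≤ ‖u‖)
    (hw : ((Tf p : ℝ) : ℂ) = (u + u⁻¹) / 2) :
    Integrable (fun x => Real.log |p - x|) (mu 7) ∧
      ∫ x, Real.log |p - x| ∂(mu 7) = (Real.log 100 + Real.log ‖u‖) / 3 := by
  obtain ⟨X, Y, Z, mX, mY, mZ, H, h⟩ := branches
  obtain ⟨i1, i2⟩ := arcs u hu _ hw
  have hφ : Measurable (fun x => Real.log |p - x|) := by fun_prop
  have hae : ∀ᵐ θ ∂lam, (Real.log |p - X θ| + Real.log |p - Y θ| + Real.log |p - Z θ| =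
      Real.log 200 + Real.log |Tf p - cos θ|) ∧ Real.log |p - X θ| ≤ Real.log 25 ∧
      Real.log |p - Y θ| ≤ Real.log 25 ∧ Real.log |p - Z θ| ≤ Real.log 25 := by
    filter_upwards [lam_ae, ae_ne_cos (Tf p)] with θ hθ hne
    obtain ⟨h1, h2, h3, h4, h5, h6⟩ := H θ hθ
    obtain ⟨v1, v2, v3⟩ := vieta h1 h2 h3 h4 h5 h6
    refine ⟨?_, log_le hp ⟨h1.1.le, by linarith [h1.2]⟩,
      log_le hp ⟨by linarith [h2.1], by linarith [h2.2]⟩, log_le hp ⟨by linarith [h3.1], h3.2.le⟩⟩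
    have e : (p - X θ) * (p - Y θ) * (p - Z θ) = 200 * (Tf p - cos θ) := by
      unfold Tf; linear_combination (-p ^ 2) * v1 + p * v2 - v3
    have n0 : (p - X θ) * (p - Y θ) * (p - Z θ) ≠ 0 := by
      rw [e]; exact mul_ne_zero (by norm_num) (sub_ne_zero.mpr hne)
    have n1 := left_ne_zero_of_mul n0
    simp only [Real.log_abs]
    rw [← Real.log_mul (left_ne_zero_of_mul n1) (right_ne_zero_of_mul n1),
      ← Real.log_mul n1 (right_ne_zero_of_mul n0), e,
      Real.log_mul (by norm_num) (sub_ne_zero.mpr hne)]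
  have hb : Integrable (fun θ => 3 * Real.log 25 - (Real.log 200 + Real.log |Tf p - cos θ|)) lam :=
    (integrable_const _).sub ((integrable_const _).add i1)
  have hi : ∀ W : ℝ → ℝ, Measurable W → (∀ᵐ θ ∂lam, 0 ≤ Real.log 25 - Real.log |p - W θ| ∧
      Real.log 25 - Real.log |p - W θ| ≤
        3 * Real.log 25 - (Real.log 200 + Real.log |Tf p - cos θ|)) →
      Integrable (fun θ => Real.log |p - W θ|) lam := by
    intro W mW hW
    have : Integrable (fun θ => Real.log 25 - Real.log |p - W θ|) lam :=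
      hb.mono' ((hφ.comp mW).const_sub _).aestronglyMeasurable (hW.mono fun θ hθ => by
        rw [Real.norm_eq_abs, abs_of_nonneg hθ.1]; exact hθ.2)
    have h2 := (integrable_const (Real.log 25)).sub this
    refine h2.congr (Eventually.of_forall fun θ => ?_)
    simp
  obtain ⟨a, b⟩ := gen mX mY mZ h _ hφ
    (hi X mX (hae.mono fun θ ⟨a, b, c, d⟩ => ⟨by linarith, by linarith⟩))
    (hi Y mY (hae.mono fun θ ⟨a, b, c, d⟩ => ⟨by linarith, by linarith⟩))
    (hi Z mZ (hae.mono fun θ ⟨a, b, c, d⟩ => ⟨by linarith, by linarith⟩))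
  refine ⟨a, ?_⟩
  have i1' : Integrable (fun θ => Real.log |Tf p - cos θ|) lam := i1
  have i2' : ∫ θ, Real.log |Tf p - cos θ| ∂lam = π * (Real.log ‖u‖ - Real.log 2) := i2
  rw [b, integral_congr_ae (hae.mono fun θ hθ => hθ.1), integral_add (integrable_const _) i1', i2',
    integral_const, lam_real, smul_eq_mul, show (200:ℝ) = 100 * 2 by norm_num,
    Real.log_mul (by norm_num) (by norm_num)]
  field_simp; ring

lemma T_mem {x : ℝ} (hx : x ∈ KK) : |Tf x| ≤ 1 := by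
  have h1 := Tp x; have h2 := Tm x
  have a : 0 ≤ (x + 11) * ((x + 2) * (x - 13)) := by
    rcases hx with hx | hx
    · exact mul_nonneg (by linarith [hx.1])
        (mul_nonneg_of_nonpos_of_nonpos (by linarith [hx.2]) (by linarith [hx.2]))
    · exact mul_nonneg (by linarith [hx.1]) (mul_nonneg (by linarith [hx.1]) (by linarith [hx.1]))
  have b : 0 ≤ (x + 7) ^ 2 * (14 - x) := by
    rcases hx with hx | hx <;> exact mul_nonneg (sq_nonneg _) (by linarith [hx.2])
  rw [abs_le]; constructor <;> linarith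

lemma KK_sub {x : ℝ} (hx : x ∈ KK) : x ∈ Icc (-11:ℝ) 14 := by
  rcases hx with hx | hx <;> constructor <;> linarith [hx.1, hx.2]

lemma K3 (p : ℝ) (hp : p ∈ KK) : Integrable (fun x => Real.log |p - x|) (mu 7) ∧
      ∫ x, Real.log |p - x| ∂(mu 7) = Real.log 100 / 3 := by
  have h := abs_le.mp (T_mem hp)
  set u : ℂ := Tf p + Real.sqrt (1 - Tf p ^ 2) * Complex.I with hu
  have hy2 : Real.sqrt (1 - Tf p ^ 2) ^ 2 = 1 - Tf p ^ 2 := Real.sq_sqrt (by nlinarith [h.1, h.2])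
  have hun : ‖u‖ = 1 := by rw [hu, Complex.norm_add_mul_I, hy2]; simp
  have := K2 p (KK_sub hp) u hun.ge (by
    rw [Complex.inv_def, Complex.normSq_eq_norm_sq, hun]
    simp only [one_pow, inv_one, Complex.ofReal_one, mul_one]
    rw [Complex.add_conj]; simp [hu])
  simpa [hun] using this

lemma K4 (p : ℝ) (hp : p ∈ Icc (-11:ℝ) 14) (hT : Tf p ≤ -1) :
    Integrable (fun x => Real.log |p - x|) (mu 7) ∧ ∫ x, Real.log |p - x| ∂(mu 7) =
      (Real.log 100 + Real.log (-Tf p + Real.sqrt (Tf p ^ 2 - 1))) / 3 := by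
  set s := Real.sqrt (Tf p ^ 2 - 1) with hs
  have hs0 : 0 ≤ s := Real.sqrt_nonneg _
  have hs2 : s ^ 2 = Tf p ^ 2 - 1 := Real.sq_sqrt (by nlinarith)
  have hn : ‖((Tf p - s : ℝ) : ℂ)‖ = -Tf p + s := by
    rw [Complex.norm_real, Real.norm_eq_abs, abs_of_nonpos (by linarith)]; ring
  have := K2 p hp ((Tf p - s : ℝ) : ℂ) (by rw [hn]; linarith) (by
    have : (Tf p - s)⁻¹ = Tf p + s := by
      rw [eq_comm]; apply eq_inv_of_mul_eq_one_left; linarith
    rw [← Complex.ofReal_inv, this]; push_cast; ring)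
  rwa [hn] at this

lemma mu_ac (g : ℝ) : mu g ≪ volume.restrict KK := by
  rw [mu_eq]; exact withDensity_absolutelyContinuous _ _

lemma mu_ae (g : ℝ) : ∀ᵐ x ∂(mu g), x ∈ KK := (mu_ac g).ae_le (ae_restrict_mem KK_meas)

lemma mu_atom (g x : ℝ) : mu g {x} = 0 := mu_ac g (by simp)

instance : IsProbabilityMeasure (mu 7) := by
  obtain ⟨a, b⟩ := K1 (fun _ => 1) measurable_const continuousOn_const 1 (by intros; norm_num)
  rw [isProbabilityMeasure_iff_real]; simpa using b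

lemma prod_int : Integrable (fun p : ℝ × ℝ => Real.log |p.1 - p.2|) ((mu 7).prod (mu 7)) := by
  rw [integrable_prod_iff measurable_lg.aestronglyMeasurable]
  refine ⟨(mu_ae 7).mono fun x hx => (K3 x hx).1, ?_⟩
  refine (integrable_const (2 * Real.log 25 - Real.log 100 / 3)).mono'
    measurable_lg.aestronglyMeasurable.norm.integral_prod_right' ?_
  filter_upwards [mu_ae 7] with x hx
  rw [Real.norm_of_nonneg (integral_nonneg fun _ => norm_nonneg _), ← (K3 x hx).2]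
  have : ∫ y, (2 * Real.log 25 - Real.log |x - y|) ∂(mu 7) =
      2 * Real.log 25 - ∫ y, Real.log |x - y| ∂(mu 7) := by
    rw [integral_sub (integrable_const _) (K3 x hx).1]; simp
  rw [← this]
  apply integral_mono_ae (K3 x hx).1.norm ((integrable_const _).sub (K3 x hx).1)
  filter_upwards [mu_ae 7] with y hy
  have h1 := log_le (KK_sub hx) (KK_sub hy)
  have h2 : 0 ≤ Real.log 25 := Real.log_nonneg (by norm_num)
  show ‖Real.log |x - y|‖ ≤ 2 * Real.log 25 - Real.log |x - y|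
  rw [Real.norm_eq_abs, abs_le]; constructor <;> linarith

lemma energy_mu : negEnergy (mu 7) = Real.log 100 / 3 := by
  rw [negEnergy, integral_prod _ prod_int,
    integral_congr_ae ((mu_ae 7).mono fun x hx => (K3 x hx).2)]
  simp

lemma small_polys (k : ℕ) : ∃ Q : ℝ[X], Q.Monic ∧ Q.natDegree = k ∧
    ∀ x ∈ KK, |Q.eval x| ≤ 392 * Real.exp (Real.log 100 / 3) ^ k := by
  set κ := Real.exp (Real.log 100 / 3) with hκ
  have hκ1 : 1 ≤ κ := Real.one_le_exp (by positivity)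
  have hκ3 : κ ^ 3 = 100 := by
    rw [hκ, ← Real.exp_nat_mul, show ((3:ℕ):ℝ) * (Real.log 100 / 3) = Real.log 100 by
      push_cast; ring, Real.exp_log (by norm_num)]
  set TP : ℝ[X] := C (1 / 200) * (X ^ 3 - C 147 * X - C 486) with hTP
  have hq : (X ^ 3 - C 147 * X - C 486 : ℝ[X]).Monic := by monicity!
  have hqd : (X ^ 3 - C 147 * X - C 486 : ℝ[X]).natDegree = 3 := by compute_degree!
  have hTd : TP.natDegree = 3 := by rw [hTP, natDegree_C_mul (by norm_num), hqd]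
  have hTl : TP.leadingCoeff = 1 / 200 := by rw [hTP, leadingCoeff_mul, hq.leadingCoeff]; simp
  have hTe : ∀ x, TP.eval x = Tf x := fun x => by simp [hTP, Tf]; ring
  have H : ∀ m : ℕ, ∃ Q : ℝ[X], Q.Monic ∧ Q.natDegree = 3 * m ∧
      ∀ x ∈ KK, |Q.eval x| ≤ 2 * 100 ^ m := by
    intro m
    rcases Nat.eq_zero_or_pos m with rfl | hm
    · exact ⟨1, monic_one, by simp, by simp⟩
    obtain ⟨j, rfl⟩ : ∃ j, m = j + 1 := ⟨m - 1, by omega⟩
    have hd : (Chebyshev.T ℝ ((j + 1 : ℕ) : ℤ)).natDegree = j + 1 := by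
      rw [Chebyshev.natDegree_T]; simp; omega
    refine ⟨C (2 * 100 ^ (j + 1)) * (Chebyshev.T ℝ ((j + 1 : ℕ) : ℤ)).comp TP, ?_, ?_, ?_⟩
    · rw [Monic, leadingCoeff_mul, leadingCoeff_C, leadingCoeff_comp (by rw [hTd]; norm_num),
        Chebyshev.leadingCoeff_T, hd, hTl, Int.natAbs_natCast, Nat.add_sub_cancel,
        show (200:ℝ) = 100 * 2 by norm_num, one_div, inv_pow, mul_pow]
      field_simp; ring
    · rw [natDegree_C_mul (by positivity), natDegree_comp, hd, hTd]; ring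
    · intro x hx
      rw [eval_mul, eval_C, eval_comp, hTe, abs_mul, abs_of_pos (by positivity)]
      exact mul_le_of_le_one_right (by positivity) (Chebyshev.abs_eval_T_real_le_one _ (T_mem hx))
  obtain ⟨Q, h1, h2, h3⟩ := H (k / 3)
  refine ⟨X ^ (k % 3) * Q, (monic_X_pow _).mul h1, ?_, fun x hx => ?_⟩
  · rw [(monic_X_pow _).natDegree_mul h1, natDegree_X_pow, h2]; omega
  · rw [eval_mul, eval_pow, eval_X, abs_mul, abs_pow]
    have a1 : |x| ≤ 14 := by
      have := KK_sub hx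
      rw [abs_le]; constructor <;> linarith [this.1, this.2]
    have a2 : |x| ^ (k % 3) ≤ 14 ^ 2 :=
      (pow_le_pow_left₀ (abs_nonneg _) a1 _).trans (pow_le_pow_right₀ (by norm_num) (by omega))
    have a3 : (100:ℝ) ^ (k / 3) ≤ κ ^ k := by
      rw [← hκ3, ← pow_mul]; exact pow_le_pow_right₀ hκ1 (by omega)
    calc _ ≤ 14 ^ 2 * (2 * 100 ^ (k / 3)) := mul_le_mul a2 (h3 x hx) (abs_nonneg _) (by norm_num)
      _ ≤ _ := by linarith

theorem equil : IsEquilibrium KK (mu 7) := by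
  refine ⟨⟨inferInstance, mu_ae 7, mu_atom 7, prod_int⟩, fun ρ ⟨h1, h2, h3, h4⟩ => ?_⟩
  haveI : NullSingletonClass ρ := ⟨h3⟩
  have := energy_le KK 392 _ (by norm_num) (Real.exp_pos _) small_polys ρ h2 h4
  rw [Real.log_exp] at this
  rw [energy_mu]; exact this

lemma mu_dens (g : ℝ) :
    mu g = (mu 7).withDensity (fun x => ENNReal.ofReal (|x - g| / |x - 7|)) := by
  rw [mu_eq, mu_eq, ← withDensity_mul _ (dens_meas 7).ennreal_ofReal (by fun_prop)]
  apply withDensity_congr_ae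
  filter_upwards [ae_restrict_mem KK_meas] with x hx
  have h7 : |x - 7| ≠ 0 := by
    rcases hx with hx | hx <;> rw [abs_ne_zero] <;> intro h <;> linarith [hx.1, hx.2]
  simp only [Pi.mul_apply]
  rw [← ENNReal.ofReal_mul (by unfold dens; positivity)]
  congr 1
  unfold dens
  field_simp

end Pool.Agent.Lead.WF
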